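import Mathlib
import Pool.Agent.Lib.MP_54baa8_nt.DFin

/-!
# MP_54baa8_nt: explicit upper bound for the moments of zeta under the Riemann hypothesis
-/

open Complex

namespace Pool.Agent.Results.MP_54baa8_nt.ExplicitMoments

/-- Assume the Riemann hypothesis. For every real `k > 0` and all sufficiently large `T`,
`∫_0^T |ζ(1/2 + it)|^(2k) dt ≤ C_k T (log T)^(k^2)` with `C_k = exp (exp (10000 (k + 1)))`. -/
theorem result : RiemannHypothesis → ∀ k : ℝ, 0 < k → ∃ T₀ : ℝ, ∀ T : ℝ, T₀ ≤ T →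
    ∫ t in (0 : ℝ)..T, ‖riemannZeta (1 / 2 + t * I)‖ ^ (2 * k) ≤
      Real.exp (Real.exp (10000 * (k + 1))) * T * (Real.log T) ^ (k ^ 2) :=
  fun hRH _ hk => Pool.Agent.Lib.MP_54baa8_nt.final hRH hk

end Pool.Agent.Results.MP_54baa8_nt.ExplicitMoments
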